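import Pool.Agent.H232Z.Rob.Final

set_option autoImplicit false

open Pool.Agent.H232Z.Rob

theorem Pool.Agent.Results.MP_c1ff29_an.ANeverLogConcave.result :
    ∃ Ω : Set E, IsOpen Ω ∧ Convex ℝ Ω ∧ Bornology.IsBounded Ω ∧ Ω.Nonempty ∧
      ∀ α : ℝ, 0 < α → ∀ u : E → ℝ, IsFirstRobin Ω α u →
        ¬ ConcaveOn ℝ Ω fun x => Real.log (u x) :=
  never_logConcave
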